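import Pool.Agent.Helper30.CR.Main

/-!
# MP_17cb1b_an, Q2 for groups of projective transformations

Let `D ⊆ ℂℙ³` be open, let a group `Γ` of projective transformations act properly
discontinuously on `D` with compact quotient, and let `Λ = ℂℙ³ ∖ D` be locally a finite union of
(closed, embedded, `C^∞`, real four-dimensional) sheets. Then every set `S ⊆ Λ` made of sheets,
in particular every component of `Λ`, is Levi-flat at all of its points of CR dimension one, and
its complex tangent line at such a point is tangent to a complex projective line contained in
`Λ`: the Levi foliation of a component of CR dimension one is a foliation by open pieces of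
projective lines which are contained in `Λ`.

The proof: divergent sequences in `Γ` subconverge, after scaling, to nonzero singular
endomorphisms of `ℂ⁴`, whose kernel and image are contained in the cone of `Λ`; together with the
compactness of the quotient this gives a projective line in `Λ` through every point of `Λ`, the
only exception, the union of a plane and an isolated point, being excluded by the sheets
(`Helper30/ProjDyn*`, `Helper30/CR/Dyn`). At a generic point of a sheet the line is contained in
the sheet near the point, hence is tangent to the complex tangent distribution and the second
derivative of a local equation vanishes along it (`Helper30/CR/Main`).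
-/

set_option autoImplicit false

namespace Pool.Agent.Results.MP_17cb1b_an.ProjectiveLeviFlat

open Projectivization Pool.Agent.Helper30.CR

/-- Let `D ⊆ ℂℙ³` be an open set with a compact quotient by a properly discontinuous group of
projective transformations, whose complement `Λ` is locally a finite union of real
four-dimensional sheets, and let `S` be made of sheets of `Λ`. At every point of `S` where the CR
dimension is one, `S` is Levi-flat and the projective line tangent to the complex tangent
distribution of `S` is contained in `Λ`. -/
theorem result {D : Set CP3} (hD : IsOpen D) (hΓ : HasCompactProjectiveQuotient D)
    (hΛ : IsLocallyUnionOfSheets Dᶜ) {S : Set CP3} (hS : IsMadeOfSheets Dᶜ S)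
    {z : Fin 4 → ℂ} (hz : z ∈ cone S) (hCR : HasCRDimensionAt S z 1) :
    IsLeviFlatAt S z ∧ ∀ ξ ∈ complexTangentSpace S z, ∀ hξ : ξ ≠ 0, mk ℂ ξ hξ ∈ Dᶜ :=
  main hD hΓ hΛ hS hz hCR

end Pool.Agent.Results.MP_17cb1b_an.ProjectiveLeviFlat
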